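import Mathlib
import Pool.Agent.H53.Both

set_option autoImplicit false

namespace Pool.Agent.Results.MP_f53fb8_an.RealAndComplex

/-- `X` with the given metric is an F-space over `𝕂`: a topological vector space (addition and
scalar multiplication are continuous) whose topology is given by a complete metric. The metric is
moreover translation invariant. -/
structure IsFSpace (𝕂 X : Type) [RCLike 𝕂] [AddCommGroup X] [Module 𝕂 X] [MetricSpace X] :
    Prop where
  complete : CompleteSpace X
  translation_invariant : ∀ x y z : X, dist (x + z) (y + z) = dist x y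
  continuous_add : Continuous fun p : X × X => p.1 + p.2
  continuous_smul : Continuous fun p : 𝕂 × X => p.1 • p.2

section
variable {𝕂 X : Type} [RCLike 𝕂] [AddCommGroup X] [Module 𝕂 X] [MetricSpace X]

/-- `T` is hypercyclic: the orbit `{T^n x : n = 0, 1, 2, ...}` of some vector `x` is dense. -/
def IsHypercyclic (T : X →L[𝕂] X) : Prop :=
  ∃ x : X, Dense {y : X | ∃ n : ℕ, y = (⇑T)^[n] x}

/-- `T` is cyclic: the linear span of the orbit of some vector is dense. -/
def IsCyclic (T : X →L[𝕂] X) : Prop :=
  ∃ x : X, Dense (Submodule.span 𝕂 {y : X | ∃ n : ℕ, y = (⇑T)^[n] x} : Set X)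

end

/-- There is a separable F-space over `𝕂` with infinite-dimensional dual (the space of continuous
linear functionals), no continuous linear operator of which is hypercyclic, or even cyclic. -/
def Counterexample (𝕂 : Type) [RCLike 𝕂] : Prop :=
  ∃ (X : Type) (_ : AddCommGroup X) (_ : Module 𝕂 X) (_ : MetricSpace X),
    IsFSpace 𝕂 X ∧ TopologicalSpace.SeparableSpace X ∧ ¬ FiniteDimensional 𝕂 (X →L[𝕂] 𝕂) ∧
      ∀ T : X →L[𝕂] X, ¬ IsHypercyclic T ∧ ¬ IsCyclic T

private lemma orbit_eq {𝕂 X : Type} [RCLike 𝕂] [AddCommGroup X] [Module 𝕂 X] [MetricSpace X]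
    (T : X →L[𝕂] X) (x : X) :
    {y : X | ∃ n : ℕ, y = (⇑T)^[n] x} = Set.range fun n : ℕ => (⇑T)^[n] x := by
  ext y
  constructor
  · rintro ⟨n, rfl⟩
    exact ⟨n, rfl⟩
  · rintro ⟨n, rfl⟩
    exact ⟨n, rfl⟩

private lemma no_op {𝕂 X : Type} [RCLike 𝕂] [AddCommGroup X] [Module 𝕂 X] [MetricSpace X]
    (T : X →L[𝕂] X)
    (h : ∀ x : X, ¬ Dense (Submodule.span 𝕂 (Set.range fun n : ℕ => (⇑T)^[n] x) : Set X)) :
    ¬ IsHypercyclic T ∧ ¬ IsCyclic T := by
  refine ⟨?_, ?_⟩
  · rintro ⟨x, hx⟩
    rw [orbit_eq] at hx
    exact h x (hx.mono Submodule.subset_span)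
  · rintro ⟨x, hx⟩
    rw [orbit_eq] at hx
    exact h x hx

open Pool.Agent.H53.Both in
/-- Over the real scalars and over the complex scalars there is a separable F-space with
infinite-dimensional dual on which no continuous linear operator is hypercyclic, or even cyclic. -/
theorem result : Counterexample ℝ ∧ Counterexample ℂ := by
  refine ⟨⟨XR, inferInstance, inferInstance, inferInstance,
      ⟨inferInstance, dist_add_right_XR, continuous_add, continuous_smul⟩,
      inferInstance, dual_XR, fun T => no_op T (no_cyclic_XR T)⟩,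
    ⟨XC, inferInstance, inferInstance, inferInstance,
      ⟨inferInstance, dist_add_right_XC, continuous_add, continuous_smul⟩,
      inferInstance, dual_XC, fun T => no_op T (no_cyclic_XC T)⟩⟩

end Pool.Agent.Results.MP_f53fb8_an.RealAndComplex
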